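import Pool.Agent.Results.MP_e06427_co.DiracFails

/-!
# Dirac's generalisation of the Hajos construction: what is preserved and what fails

For every choice of the data the constructed graph is `k`-chromatic and vertex critical, and all its
edges are critical except possibly some edges of the common clique; a local criterion for the
criticality of an edge of the clique contains the known positive cases; for `h ≥ 3` the
construction does not always preserve criticality.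
-/

set_option autoImplicit false

namespace Pool.Agent.Results.MP_e06427_co.StructureTheorem

open SimpleGraph Pool.Agent.H62R3.Dirac

/-! ### Matching colours -/

theorem match_perm {n : ℕ} {α : Type} (H : Finset α) (u v : α → Fin n)
    (hp : ∀ a ∈ H, ∀ b ∈ H, u a = u b ↔ v a = v b) :
    ∃ σ : Equiv.Perm (Fin n), ∀ a ∈ H, σ (v a) = u a := by
  classical
  let f : Fin n → Fin n := fun p => if h : ∃ a ∈ H, v a = p then u h.choose else p
  have hf : ∀ a ∈ H, f (v a) = u a := by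
    intro a ha
    have h : ∃ a' ∈ H, v a' = v a := ⟨a, ha, rfl⟩
    have h1 : f (v a) = u h.choose := dif_pos h
    rw [h1]
    exact (hp _ h.choose_spec.1 _ ha).2 h.choose_spec.2
  have hinj : Set.InjOn f (H.image v : Finset (Fin n)) := by
    intro p hp' q hq hpq
    rw [Finset.mem_coe, Finset.mem_image] at hp' hq
    obtain ⟨a, ha, rfl⟩ := hp'
    obtain ⟨b, hb, rfl⟩ := hq
    rw [hf a ha, hf b hb] at hpq
    exact (hp a ha b hb).1 hpq
  obtain ⟨g, hg⟩ := Finset.exists_equiv_extend_of_card_eq (t := (Finset.univ : Finset (Fin n)))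
    (by simp) (Finset.subset_univ _) hinj
  refine ⟨g.trans (Equiv.subtypeUnivEquiv (fun x => Finset.mem_univ x)), fun a ha => ?_⟩
  have h1 := hg (v a) (Finset.mem_image_of_mem v ha)
  rw [hf a ha] at h1
  exact h1

theorem match_perm2 {n : ℕ} {α : Type} (H : Finset α) (u v : α → Fin n)
    (hp : ∀ a ∈ H, ∀ b ∈ H, u a = u b ↔ v a = v b) (p q : Fin n)
    (hno : ∀ a ∈ H, ¬ (u a = p ∧ v a = q))
    (hc : (∃ a ∈ H, u a = p) ∨ (∃ a ∈ H, v a = q) ∨ (H.image u).card + 2 ≤ n) :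
    ∃ σ : Equiv.Perm (Fin n), (∀ a ∈ H, σ (v a) = u a) ∧ p ≠ σ q := by
  classical
  obtain ⟨σ, hσ⟩ := match_perm H u v hp
  by_cases hq : ∃ a ∈ H, v a = q
  · obtain ⟨a, ha, rfl⟩ := hq
    refine ⟨σ, hσ, fun h => ?_⟩
    rw [hσ a ha] at h
    exact hno a ha ⟨h.symm, rfl⟩
  by_cases hpp : ∃ a ∈ H, u a = p
  · obtain ⟨a, ha, rfl⟩ := hpp
    refine ⟨σ, hσ, fun h => ?_⟩
    rw [← hσ a ha] at h
    exact hq ⟨a, ha, σ.injective h⟩
  have hcard : (H.image u).card + 2 ≤ n := by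
    rcases hc with h | h | h
    · exact absurd h hpp
    · exact absurd h hq
    · exact h
  by_cases hs : p = σ q
  · obtain ⟨w, hw⟩ : ∃ w, w ∉ insert p (H.image u) := by
      by_contra hcon
      push Not at hcon
      have h1 : (Finset.univ : Finset (Fin n)) ⊆ insert p (H.image u) := fun w _ => hcon w
      have h2 := Finset.card_le_card h1
      have h3 := Finset.card_insert_le p (H.image u)
      rw [Finset.card_univ, Fintype.card_fin] at h2
      omega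
    rw [Finset.mem_insert, not_or] at hw
    refine ⟨σ.trans (Equiv.swap p w), fun a ha => ?_, ?_⟩
    · rw [Equiv.trans_apply, hσ a ha]
      apply Equiv.swap_apply_of_ne_of_ne
      · exact fun h => hpp ⟨a, ha, h⟩
      · rintro rfl
        exact hw.2 (Finset.mem_image_of_mem u ha)
    · rw [Equiv.trans_apply, ← hs, Equiv.swap_apply_left]
      exact fun h => hw.1 h.symm
  · exact ⟨σ, hσ, hs⟩

/-! ### Critical graphs -/

theorem not_colorable_of_critical {V : Type} {n : ℕ} {G : SimpleGraph V}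
    (h : IsCritical (n + 1) G) : ¬ G.Colorable n := by
  intro hc
  have h1 := hc.chromaticNumber_le
  rw [h.1] at h1
  have h2 : n + 1 ≤ n := by exact_mod_cast h1
  omega

theorem valid_of {V : Type} {n : ℕ} {G : SimpleGraph V} {x y : V}
    (f : (G.deleteEdges {s(x, y)}).Coloring (Fin n)) {a b : V} (h : G.Adj a b)
    (hne : s(a, b) ≠ s(x, y)) : f a ≠ f b := by
  apply f.valid
  rw [deleteEdges_adj]
  exact ⟨h, by rw [Set.mem_singleton_iff]; exact hne⟩

theorem same_of {V : Type} {n : ℕ} {G : SimpleGraph V} {x y : V} (hG : ¬ G.Colorable n)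
    (f : (G.deleteEdges {s(x, y)}).Coloring (Fin n)) : f x = f y := by
  by_contra hne
  apply hG
  refine ⟨Coloring.mk (fun v => f v) ?_⟩
  intro a b hab
  by_cases h : s(a, b) = s(x, y)
  · rw [Sym2.eq_iff] at h
    rcases h with ⟨rfl, rfl⟩ | ⟨rfl, rfl⟩
    · exact hne
    · exact fun h => hne h.symm
  · exact valid_of f hab h

/-- the degree of a vertex of an `(n+1)`-critical graph is at least `n` -/
theorem mindeg {V : Type} {n : ℕ} {G : SimpleGraph V} (h : IsCritical (n + 1) G) (v : V)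
    (S : Finset V) (hS : ∀ w, G.Adj v w → w ∈ S) (hcard : S.card < n) : False := by
  classical
  apply not_colorable_of_critical h
  let G' : G.Subgraph := (⊤ : G.Subgraph).deleteVerts {v}
  have hne : G' ≠ ⊤ := by
    intro h'
    have h1 : v ∈ (⊤ : G.Subgraph).verts := trivial
    rw [← h'] at h1
    exact h1.2 rfl
  have hlt := h.2 G' hne
  have hle : G'.coe.chromaticNumber ≤ n := by
    have : G'.coe.chromaticNumber < (n : ℕ∞) + 1 := by exact_mod_cast hlt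
    exact Order.le_of_lt_add_one this
  rw [chromaticNumber_le_iff_colorable] at hle
  obtain ⟨f⟩ := hle
  have hmem : ∀ w, w ≠ v → w ∈ G'.verts := fun w hw => ⟨trivial, hw⟩
  obtain ⟨col, hcol⟩ : ∃ col : Fin n, ∀ w (hw : w ≠ v), w ∈ S → f ⟨w, hmem w hw⟩ ≠ col := by
    let T : Finset (Fin n) := S.attach.image
      (fun w => if hw : w.1 ≠ v then f ⟨w.1, hmem w.1 hw⟩ else ⟨0, by omega⟩)
    have hT : T.card < n :=
      lt_of_le_of_lt (Finset.card_image_le.trans (by rw [Finset.card_attach])) hcard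
    obtain ⟨col, hcol⟩ : ∃ col, col ∉ T := by
      by_contra hcon
      push Not at hcon
      have h1 : (Finset.univ : Finset (Fin n)) ⊆ T := fun w _ => hcon w
      have h2 := Finset.card_le_card h1
      rw [Finset.card_univ, Fintype.card_fin] at h2
      omega
    refine ⟨col, fun w hw hwS he => hcol ?_⟩
    rw [Finset.mem_image]
    exact ⟨⟨w, hwS⟩, Finset.mem_attach _ _, by rw [dif_pos hw]; exact he⟩
  refine ⟨Coloring.mk (fun w => if hw : w ≠ v then f ⟨w, hmem w hw⟩ else col) ?_⟩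
  intro a b hab
  by_cases ha : a ≠ v
  · by_cases hb : b ≠ v
    · simp only [dif_pos ha, dif_pos hb]
      apply f.valid
      exact ⟨⟨trivial, ha⟩, ⟨trivial, hb⟩, hab⟩
    · simp only [dif_pos ha, dif_neg hb]
      push Not at hb
      subst hb
      exact hcol a ha (hS a hab.symm)
  · push Not at ha
    subst ha
    have hb : b ≠ a := hab.ne'
    simp only [ne_eq, not_true_eq_false, not_false_eq_true, dif_neg, dif_pos hb]
    exact fun h => hcol b hb (hS b hab) h.symm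

/-! ### The construction -/

section Main

variable {n h : ℕ} {V₁ V₂ V : Type}

/-- a proper colouring of a subgraph of the constructed graph from colourings of the parts -/
theorem glue (D : Data (n + 1) h V₁ V₂ V) (K : SimpleGraph V) (hK : K ≤ D.graph)
    (c₁ : V₁ → Fin n) (c₂ : V₂ → Fin n) (hag : ∀ a b, D.j₁ a = D.j₂ b → c₁ a = c₂ b)
    (h1 : ∀ a b, K.Adj (D.j₁ a) (D.j₁ b) → D.G₁.Adj a b → s(a, b) ≠ s(D.x₁, D.y₁) → c₁ a ≠ c₁ b)
    (h2 : ∀ a b, K.Adj (D.j₂ a) (D.j₂ b) → D.G₂.Adj a b → s(a, b) ≠ s(D.x₂, D.y₂) → c₂ a ≠ c₂ b)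
    (h3 : K.Adj (D.j₁ D.y₁) (D.j₂ D.y₂) → c₁ D.y₁ ≠ c₂ D.y₂) : K.Colorable n := by
  have hex : ∀ v, ∃ col : Fin n, (∀ a, D.j₁ a = v → c₁ a = col) ∧
      (∀ b, D.j₂ b = v → c₂ b = col) := by
    intro v
    rcases D.cover v with ⟨a, rfl⟩ | ⟨b, rfl⟩
    · refine ⟨c₁ a, fun a' ha' => by rw [D.inj₁ ha'], fun b hb => (hag a b hb.symm).symm⟩
    · refine ⟨c₂ b, fun a ha => hag a b ha, fun b' hb' => by rw [D.inj₂ hb']⟩
  choose c hc1 hc2 using hex
  have e1 : ∀ a, c (D.j₁ a) = c₁ a := fun a => (hc1 _ a rfl).symm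
  have e2 : ∀ b, c (D.j₂ b) = c₂ b := fun b => (hc2 _ b rfl).symm
  have key : ∀ v w, K.Adj v w →
      ((∃ a b, D.G₁.Adj a b ∧ s(a, b) ≠ s(D.x₁, D.y₁) ∧ D.j₁ a = v ∧ D.j₁ b = w) ∨
      (∃ a b, D.G₂.Adj a b ∧ s(a, b) ≠ s(D.x₂, D.y₂) ∧ D.j₂ a = v ∧ D.j₂ b = w) ∨
      (v = D.j₁ D.y₁ ∧ w = D.j₂ D.y₂)) → c v ≠ c w := by
    intro v w hvw hr
    rcases hr with ⟨a, b, hab, hne, rfl, rfl⟩ | ⟨a, b, hab, hne, rfl, rfl⟩ | ⟨rfl, rfl⟩
    · rw [e1, e1]
      exact h1 a b hvw hab hne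
    · rw [e2, e2]
      exact h2 a b hvw hab hne
    · rw [e1, e2]
      exact h3 hvw
  refine ⟨Coloring.mk c ?_⟩
  intro v w hvw
  have hG := hK hvw
  rw [Data.graph, fromRel_adj] at hG
  rcases hG.2 with hr | hr
  · exact key v w hvw hr
  · exact fun he => key w v hvw.symm hr he.symm

theorem adj₁' (D : Data (n + 1) h V₁ V₂ V) {a b : V₁} (hab : D.G₁.Adj a b)
    (hne : s(a, b) ≠ s(D.x₁, D.y₁)) : D.graph.Adj (D.j₁ a) (D.j₁ b) := by
  rw [Data.graph, fromRel_adj]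
  exact ⟨fun he => hab.ne (D.inj₁ he), Or.inl (Or.inl ⟨a, b, hab, hne, rfl, rfl⟩)⟩

theorem adj₂' (D : Data (n + 1) h V₁ V₂ V) {a b : V₂} (hab : D.G₂.Adj a b)
    (hne : s(a, b) ≠ s(D.x₂, D.y₂)) : D.graph.Adj (D.j₂ a) (D.j₂ b) := by
  rw [Data.graph, fromRel_adj]
  exact ⟨fun he => hab.ne (D.inj₂ he), Or.inl (Or.inr (Or.inl ⟨a, b, hab, hne, rfl, rfl⟩))⟩

theorem adj₃' (D : Data (n + 1) h V₁ V₂ V) : D.graph.Adj (D.j₁ D.y₁) (D.j₂ D.y₂) := by
  rw [Data.graph, fromRel_adj]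
  refine ⟨fun he => ?_, Or.inl (Or.inr (Or.inr ⟨rfl, rfl⟩))⟩
  exact D.y₁_not_mem (D.meet _ _ he).1

/-- exchanging the roles of the two parts -/
def swap {k : ℕ} (D : Data k h V₁ V₂ V) : Data k h V₂ V₁ V where
  G₁ := D.G₂
  G₂ := D.G₁
  crit₁ := D.crit₂
  crit₂ := D.crit₁
  H₁ := D.H₂
  H₂ := D.H₁
  clique₁ := D.clique₂
  clique₂ := D.clique₁
  x₁ := D.x₂
  y₁ := D.y₂
  x₂ := D.x₁
  y₂ := D.y₁
  x₁_mem := D.x₂_mem
  y₁_not_mem := D.y₂_not_mem
  adj₁ := D.adj₂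
  x₂_mem := D.x₁_mem
  y₂_not_mem := D.y₁_not_mem
  adj₂ := D.adj₁
  j₁ := D.j₂
  j₂ := D.j₁
  inj₁ := D.inj₂
  inj₂ := D.inj₁
  cover := fun v => (D.cover v).symm
  meet := fun a b hab => (D.meet b a hab.symm).symm
  ident₁ := fun a ha => by
    obtain ⟨b, hb, he⟩ := D.ident₂ a ha
    exact ⟨b, hb, he.symm⟩
  ident₂ := fun b hb => by
    obtain ⟨a, ha, he⟩ := D.ident₁ b hb
    exact ⟨a, ha, he.symm⟩
  base := D.base.symm

theorem swap_graph {k : ℕ} (D : Data k h V₁ V₂ V) : (swap D).graph = D.graph := by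
  ext v w
  rw [Data.graph, Data.graph, fromRel_adj, fromRel_adj]
  constructor
  · rintro ⟨hne, hr⟩
    refine ⟨hne, ?_⟩
    rcases hr with (h | h | ⟨h, h'⟩) | (h | h | ⟨h, h'⟩)
    · exact Or.inl (Or.inr (Or.inl h))
    · exact Or.inl (Or.inl h)
    · exact Or.inr (Or.inr (Or.inr ⟨h', h⟩))
    · exact Or.inr (Or.inr (Or.inl h))
    · exact Or.inr (Or.inl h)
    · exact Or.inl (Or.inr (Or.inr ⟨h', h⟩))
  · rintro ⟨hne, hr⟩
    refine ⟨hne, ?_⟩
    rcases hr with (h | h | ⟨h, h'⟩) | (h | h | ⟨h, h'⟩)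
    · exact Or.inl (Or.inr (Or.inl h))
    · exact Or.inl (Or.inl h)
    · exact Or.inr (Or.inr (Or.inr ⟨h', h⟩))
    · exact Or.inr (Or.inr (Or.inl h))
    · exact Or.inr (Or.inl h)
    · exact Or.inl (Or.inr (Or.inr ⟨h', h⟩))

/-- the identification as a map -/
theorem exists_phi (D : Data (n + 1) h V₁ V₂ V) : ∃ φ : V₁ → V₂,
    (∀ a ∈ D.H₁, φ a ∈ D.H₂ ∧ D.j₁ a = D.j₂ (φ a)) ∧ φ D.x₁ = D.x₂ ∧
    (∀ a b, D.j₁ a = D.j₂ b → a ∈ D.H₁ ∧ φ a = b) ∧
    (∀ a ∈ D.H₁, ∀ b ∈ D.H₁, φ a = φ b → a = b) := by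
  classical
  have hex : ∀ a, ∃ b, a ∈ D.H₁ → b ∈ D.H₂ ∧ D.j₁ a = D.j₂ b := by
    intro a
    by_cases ha : a ∈ D.H₁
    · obtain ⟨b, hb, he⟩ := D.ident₁ a ha
      exact ⟨b, fun _ => ⟨hb, he⟩⟩
    · exact ⟨D.x₂, fun h => absurd h ha⟩
  choose φ hφ using hex
  have h3 : ∀ a b, D.j₁ a = D.j₂ b → a ∈ D.H₁ ∧ φ a = b := by
    intro a b hab
    have ha := (D.meet a b hab).1
    exact ⟨ha, D.inj₂ ((hφ a ha).2.symm.trans hab)⟩
  refine ⟨φ, hφ, (h3 _ _ D.base).2, h3, ?_⟩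
  intro a ha b hb hab
  apply D.inj₁
  rw [(hφ a ha).2, (hφ b hb).2, hab]

/-- gluing two colourings which induce the same partition of the clique -/
theorem glue_match (D : Data (n + 1) h V₁ V₂ V) (K : SimpleGraph V) (hK : K ≤ D.graph)
    (φ : V₁ → V₂) (hφ : ∀ a b, D.j₁ a = D.j₂ b → a ∈ D.H₁ ∧ φ a = b)
    (f₁ : V₁ → Fin n) (f₂ : V₂ → Fin n)
    (hpat : ∀ a ∈ D.H₁, ∀ b ∈ D.H₁, f₁ a = f₁ b ↔ f₂ (φ a) = f₂ (φ b))
    (h1 : ∀ a b, K.Adj (D.j₁ a) (D.j₁ b) → D.G₁.Adj a b → s(a, b) ≠ s(D.x₁, D.y₁) → f₁ a ≠ f₁ b)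
    (h2 : ∀ a b, K.Adj (D.j₂ a) (D.j₂ b) → D.G₂.Adj a b → s(a, b) ≠ s(D.x₂, D.y₂) → f₂ a ≠ f₂ b)
    (h3 : K.Adj (D.j₁ D.y₁) (D.j₂ D.y₂) →
      (∀ a ∈ D.H₁, ¬ (f₁ a = f₁ D.y₁ ∧ f₂ (φ a) = f₂ D.y₂)) ∧
      ((∃ a ∈ D.H₁, f₁ a = f₁ D.y₁) ∨ (∃ a ∈ D.H₁, f₂ (φ a) = f₂ D.y₂) ∨
        (D.H₁.image f₁).card + 2 ≤ n)) : K.Colorable n := by
  classical
  have hmain : ∃ σ : Equiv.Perm (Fin n), (∀ a ∈ D.H₁, σ (f₂ (φ a)) = f₁ a) ∧
      (K.Adj (D.j₁ D.y₁) (D.j₂ D.y₂) → f₁ D.y₁ ≠ σ (f₂ D.y₂)) := by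
    by_cases hy : K.Adj (D.j₁ D.y₁) (D.j₂ D.y₂)
    · obtain ⟨σ, hσ, hne⟩ := match_perm2 D.H₁ f₁ (fun a => f₂ (φ a)) hpat (f₁ D.y₁) (f₂ D.y₂)
        (h3 hy).1 (h3 hy).2
      exact ⟨σ, hσ, fun _ => hne⟩
    · obtain ⟨σ, hσ⟩ := match_perm D.H₁ f₁ (fun a => f₂ (φ a)) hpat
      exact ⟨σ, hσ, fun h => absurd h hy⟩
  obtain ⟨σ, hσ, hne⟩ := hmain
  refine glue D K hK f₁ (fun b => σ (f₂ b)) ?_ h1 ?_ hne
  · intro a b hab
    obtain ⟨ha, rfl⟩ := hφ a b hab
    exact (hσ a ha).symm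
  · intro a b hK' hab hne' he
    exact h2 a b hK' hab hne' (σ.injective he)

theorem not_mem_edge {W : Type} {K : SimpleGraph W} {v w a b : W}
    (hK : (K.deleteEdges {s(v, w)}).Adj a b) : s(a, b) ≠ s(v, w) := by
  rw [deleteEdges_adj] at hK
  exact hK.2

theorem map_ne {W₁ W : Type} {j : W₁ → W} {a b c d : W₁} (hne : s(j a, j b) ≠ s(j c, j d)) :
    s(a, b) ≠ s(c, d) := by
  intro he
  apply hne
  rw [Sym2.eq_iff] at he ⊢
  rcases he with ⟨rfl, rfl⟩ | ⟨rfl, rfl⟩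
  · exact Or.inl ⟨rfl, rfl⟩
  · exact Or.inr ⟨rfl, rfl⟩

/-- edges of the first part outside the clique are critical -/
theorem edge₁ (D : Data (n + 1) h V₁ V₂ V) {a b : V₁} (hab : D.G₁.Adj a b)
    (hne : s(a, b) ≠ s(D.x₁, D.y₁)) (hout : ¬ (a ∈ D.H₁ ∧ b ∈ D.H₁)) :
    (D.graph.deleteEdges {s(D.j₁ a, D.j₁ b)}).Colorable n := by
  obtain ⟨φ, hφ1, hφx, hφ2, hφ3⟩ := exists_phi D
  obtain ⟨f₁⟩ := delete_of_critical D.G₁ n D.crit₁ a b hab
  obtain ⟨f₂⟩ := delete_of_critical D.G₂ n D.crit₂ D.x₂ D.y₂ D.adj₂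
  have hxy : f₁ D.x₁ ≠ f₁ D.y₁ := valid_of f₁ D.adj₁ (fun he => hne he.symm)
  have hxy2 : f₂ D.x₂ = f₂ D.y₂ := same_of (not_colorable_of_critical D.crit₂) f₂
  have hi1 : ∀ p ∈ D.H₁, ∀ q ∈ D.H₁, f₁ p = f₁ q → p = q := by
    intro p hp q hq he
    by_contra hpq
    refine valid_of f₁ (D.clique₁.1 hp hq hpq) ?_ he
    intro h'
    rw [Sym2.eq_iff] at h'
    rcases h' with ⟨rfl, rfl⟩ | ⟨rfl, rfl⟩
    · exact hout ⟨hp, hq⟩
    · exact hout ⟨hq, hp⟩
  have hi2 : ∀ p ∈ D.H₂, ∀ q ∈ D.H₂, f₂ p = f₂ q → p = q := by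
    intro p hp q hq he
    by_contra hpq
    refine valid_of f₂ (D.clique₂.1 hp hq hpq) ?_ he
    intro h'
    rw [Sym2.eq_iff] at h'
    rcases h' with ⟨rfl, rfl⟩ | ⟨rfl, rfl⟩
    · exact D.y₂_not_mem hq
    · exact D.y₂_not_mem hp
  have hpat : ∀ p ∈ D.H₁, ∀ q ∈ D.H₁, f₁ p = f₁ q ↔ f₂ (φ p) = f₂ (φ q) := by
    intro p hp q hq
    constructor
    · intro he
      rw [hi1 p hp q hq he]
    · intro he
      rw [hφ3 p hp q hq (hi2 _ (hφ1 p hp).1 _ (hφ1 q hq).1 he)]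
  refine glue_match D _ (deleteEdges_le _) φ hφ2 f₁ f₂ hpat ?_ ?_ ?_
  · intro p q hK hpq _
    exact valid_of f₁ hpq (map_ne (not_mem_edge hK))
  · intro p q _ hpq hne'
    exact valid_of f₂ hpq hne'
  · intro _
    refine ⟨fun p hp hpp => ?_, Or.inr (Or.inl ⟨D.x₁, D.x₁_mem, by rw [hφx]; exact hxy2⟩)⟩
    have h1 : f₂ (φ p) = f₂ (φ D.x₁) := by rw [hφx, hxy2]; exact hpp.2
    have h2 := (hpat p hp D.x₁ D.x₁_mem).2 h1
    exact hxy (h2.symm.trans hpp.1)

/-- edges of the second part outside the clique are critical -/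
theorem edge₂ (D : Data (n + 1) h V₁ V₂ V) {a b : V₂} (hab : D.G₂.Adj a b)
    (hne : s(a, b) ≠ s(D.x₂, D.y₂)) (hout : ¬ (a ∈ D.H₂ ∧ b ∈ D.H₂)) :
    (D.graph.deleteEdges {s(D.j₂ a, D.j₂ b)}).Colorable n := by
  have h1 := edge₁ (swap D) hab hne hout
  rw [swap_graph] at h1
  exact h1

/-- the new edge is critical -/
theorem edge₃ (D : Data (n + 1) h V₁ V₂ V) :
    (D.graph.deleteEdges {s(D.j₁ D.y₁, D.j₂ D.y₂)}).Colorable n := by
  obtain ⟨φ, hφ1, hφx, hφ2, hφ3⟩ := exists_phi D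
  obtain ⟨f₁⟩ := delete_of_critical D.G₁ n D.crit₁ D.x₁ D.y₁ D.adj₁
  obtain ⟨f₂⟩ := delete_of_critical D.G₂ n D.crit₂ D.x₂ D.y₂ D.adj₂
  have hi1 : ∀ p ∈ D.H₁, ∀ q ∈ D.H₁, f₁ p = f₁ q → p = q := by
    intro p hp q hq he
    by_contra hpq
    refine valid_of f₁ (D.clique₁.1 hp hq hpq) ?_ he
    intro h'
    rw [Sym2.eq_iff] at h'
    rcases h' with ⟨rfl, rfl⟩ | ⟨rfl, rfl⟩
    · exact D.y₁_not_mem hq
    · exact D.y₁_not_mem hp
  have hi2 : ∀ p ∈ D.H₂, ∀ q ∈ D.H₂, f₂ p = f₂ q → p = q := by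
    intro p hp q hq he
    by_contra hpq
    refine valid_of f₂ (D.clique₂.1 hp hq hpq) ?_ he
    intro h'
    rw [Sym2.eq_iff] at h'
    rcases h' with ⟨rfl, rfl⟩ | ⟨rfl, rfl⟩
    · exact D.y₂_not_mem hq
    · exact D.y₂_not_mem hp
  have hpat : ∀ p ∈ D.H₁, ∀ q ∈ D.H₁, f₁ p = f₁ q ↔ f₂ (φ p) = f₂ (φ q) := by
    intro p hp q hq
    constructor
    · intro he
      rw [hi1 p hp q hq he]
    · intro he
      rw [hφ3 p hp q hq (hi2 _ (hφ1 p hp).1 _ (hφ1 q hq).1 he)]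
  refine glue_match D _ (deleteEdges_le _) φ hφ2 f₁ f₂ hpat ?_ ?_ ?_
  · intro p q _ hpq hne'
    exact valid_of f₁ hpq hne'
  · intro p q _ hpq hne'
    exact valid_of f₂ hpq hne'
  · intro hK
    exact absurd rfl (not_mem_edge hK)

/-- `c` is adjacent to one of the end vertices of the new edge -/
def Near {k : ℕ} (D : Data k h V₁ V₂ V) (c : V₁) : Prop :=
  D.G₁.Adj c D.y₁ ∨ ∃ b, D.j₁ c = D.j₂ b ∧ D.G₂.Adj b D.y₂

/-- a criterion for the edges of the clique -/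
theorem edge₄ (D : Data (n + 1) h V₁ V₂ V) (hn : h + 1 ≤ n) {a a' : V₁} (ha : a ∈ D.H₁)
    (ha' : a' ∈ D.H₁) (haa : a ≠ a')
    (hnear : a = D.x₁ ∨ a' = D.x₁ ∨ Near D a ∨ Near D a')
    (hall : ∀ c ∈ D.H₁, c ≠ D.x₁ → c ≠ a → c ≠ a' → Near D c) :
    (D.graph.deleteEdges {s(D.j₁ a, D.j₁ a')}).Colorable n := by
  classical
  obtain ⟨φ, hφ1, hφx, hφ2, hφ3⟩ := exists_phi D
  have hadj1 : D.G₁.Adj a a' := D.clique₁.1 ha ha' haa
  have hφaa : φ a ≠ φ a' := fun he => haa (hφ3 a ha a' ha' he)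
  have hadj2 : D.G₂.Adj (φ a) (φ a') := D.clique₂.1 (hφ1 a ha).1 (hφ1 a' ha').1 hφaa
  obtain ⟨f₁⟩ := delete_of_critical D.G₁ n D.crit₁ a a' hadj1
  obtain ⟨f₂⟩ := delete_of_critical D.G₂ n D.crit₂ (φ a) (φ a') hadj2
  have hs1 : f₁ a = f₁ a' := same_of (not_colorable_of_critical D.crit₁) f₁
  have hs2 : f₂ (φ a) = f₂ (φ a') := same_of (not_colorable_of_critical D.crit₂) f₂
  -- edges at `y₁`, `y₂` are not deleted
  have hy1 : ∀ p, D.G₁.Adj p D.y₁ → f₁ p ≠ f₁ D.y₁ := by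
    intro p hp
    refine valid_of f₁ hp ?_
    intro h'
    rw [Sym2.eq_iff] at h'
    rcases h' with ⟨-, h'⟩ | ⟨-, h'⟩
    · exact D.y₁_not_mem (by rw [h']; exact ha')
    · exact D.y₁_not_mem (by rw [h']; exact ha)
  have hy2 : ∀ p, D.G₂.Adj p D.y₂ → f₂ p ≠ f₂ D.y₂ := by
    intro p hp
    refine valid_of f₂ hp ?_
    intro h'
    rw [Sym2.eq_iff] at h'
    rcases h' with ⟨-, h'⟩ | ⟨-, h'⟩
    · exact D.y₂_not_mem (by rw [h']; exact (hφ1 a' ha').1)
    · exact D.y₂_not_mem (by rw [h']; exact (hφ1 a ha).1)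
  have hNear : ∀ c, Near D c → ¬ (f₁ c = f₁ D.y₁ ∧ f₂ (φ c) = f₂ D.y₂) := by
    rintro c (hc | ⟨b, hb, hbadj⟩) ⟨e1, e2⟩
    · exact hy1 c hc e1
    · obtain ⟨-, hcb⟩ := hφ2 c b hb
      rw [hcb] at e2
      exact hy2 b hbadj e2
  have hX : ¬ (f₁ D.x₁ = f₁ D.y₁ ∧ f₂ (φ D.x₁) = f₂ D.y₂) := fun he => hy1 _ D.adj₁ he.1
  have hpat1 : ∀ p ∈ D.H₁, ∀ q ∈ D.H₁, f₁ p = f₁ q ↔
      (p = q ∨ (p = a ∧ q = a') ∨ (p = a' ∧ q = a)) := by
    intro p hp q hq
    constructor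
    · intro he
      by_cases hpq : p = q
      · exact Or.inl hpq
      · right
        by_contra hcon
        refine valid_of f₁ (D.clique₁.1 hp hq hpq) ?_ he
        rw [ne_eq, Sym2.eq_iff]
        exact hcon
    · rintro (rfl | ⟨rfl, rfl⟩ | ⟨rfl, rfl⟩)
      · rfl
      · exact hs1
      · exact hs1.symm
  have hpat2 : ∀ p ∈ D.H₁, ∀ q ∈ D.H₁, f₂ (φ p) = f₂ (φ q) ↔
      (p = q ∨ (p = a ∧ q = a') ∨ (p = a' ∧ q = a)) := by
    intro p hp q hq
    constructor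
    · intro he
      by_cases hpq : p = q
      · exact Or.inl hpq
      · right
        by_contra hcon
        have hpq' : φ p ≠ φ q := fun h' => hpq (hφ3 p hp q hq h')
        refine valid_of f₂ (D.clique₂.1 (hφ1 p hp).1 (hφ1 q hq).1 hpq') ?_ he
        rw [ne_eq, Sym2.eq_iff]
        rintro (⟨h', h''⟩ | ⟨h', h''⟩)
        · exact hcon (Or.inl ⟨hφ3 p hp a ha h', hφ3 q hq a' ha' h''⟩)
        · exact hcon (Or.inr ⟨hφ3 p hp a' ha' h', hφ3 q hq a ha h''⟩)
    · rintro (rfl | ⟨rfl, rfl⟩ | ⟨rfl, rfl⟩)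
      · rfl
      · exact hs2
      · exact hs2.symm
  have hpat : ∀ p ∈ D.H₁, ∀ q ∈ D.H₁, f₁ p = f₁ q ↔ f₂ (φ p) = f₂ (φ q) := by
    intro p hp q hq
    rw [hpat1 p hp q hq, hpat2 p hp q hq]
  refine glue_match D _ (deleteEdges_le _) φ hφ2 f₁ f₂ hpat ?_ ?_ ?_
  · intro p q hK hpq _
    exact valid_of f₁ hpq (map_ne (not_mem_edge hK))
  · intro p q hK hpq _
    have h1 := not_mem_edge hK
    rw [(hφ1 a ha).2, (hφ1 a' ha').2] at h1
    exact valid_of f₂ hpq (map_ne h1)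
  · intro _
    refine ⟨?_, Or.inr (Or.inr ?_)⟩
    · -- the class of `a` and `a'`
      have hA : ¬ (f₁ a = f₁ D.y₁ ∧ f₂ (φ a) = f₂ D.y₂) := by
        rcases hnear with h' | h' | h' | h'
        · rintro ⟨e1, e2⟩
          exact hX ⟨(congrArg f₁ h').symm.trans e1, (congrArg (fun z => f₂ (φ z)) h').symm.trans e2⟩
        · rintro ⟨e1, e2⟩
          exact hX ⟨(congrArg f₁ h').symm.trans (hs1.symm.trans e1),
            (congrArg (fun z => f₂ (φ z)) h').symm.trans (hs2.symm.trans e2)⟩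
        · exact hNear a h'
        · rw [hs1, hs2]
          exact hNear a' h'
      intro p hp
      by_cases hpx : p = D.x₁
      · rw [hpx]
        exact hX
      by_cases hpa : p = a
      · rw [hpa]
        exact hA
      by_cases hpa' : p = a'
      · rw [hpa', ← hs1, ← hs2]
        exact hA
      exact hNear p (hall p hp hpx hpa hpa')
    · have h1 : D.H₁.image f₁ ⊆ (D.H₁.erase a).image f₁ := by
        intro c hc
        rw [Finset.mem_image] at hc ⊢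
        obtain ⟨p, hp, rfl⟩ := hc
        by_cases hpa : p = a
        · exact ⟨a', Finset.mem_erase.2 ⟨haa.symm, ha'⟩, by rw [hpa, hs1]⟩
        · exact ⟨p, Finset.mem_erase.2 ⟨hpa, hp⟩, rfl⟩
      have h2 := (Finset.card_le_card h1).trans Finset.card_image_le
      rw [Finset.card_erase_of_mem ha, D.clique₁.2] at h2
      have h3 : 0 < D.H₁.card := Finset.card_pos.2 ⟨a, ha⟩
      rw [D.clique₁.2] at h3
      omega

theorem not_colorable (D : Data (n + 1) h V₁ V₂ V) : ¬ D.graph.Colorable n := by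
  rintro ⟨c⟩
  have h1 : c (D.j₁ D.x₁) = c (D.j₁ D.y₁) := by
    by_contra hne
    apply not_colorable_of_critical D.crit₁
    refine ⟨Coloring.mk (fun v => c (D.j₁ v)) ?_⟩
    intro a b hab
    by_cases he : s(a, b) = s(D.x₁, D.y₁)
    · rw [Sym2.eq_iff] at he
      rcases he with ⟨rfl, rfl⟩ | ⟨rfl, rfl⟩
      · exact hne
      · exact fun h => hne h.symm
    · exact c.valid (adj₁' D hab he)
  have h2 : c (D.j₂ D.x₂) = c (D.j₂ D.y₂) := by
    by_contra hne
    apply not_colorable_of_critical D.crit₂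
    refine ⟨Coloring.mk (fun v => c (D.j₂ v)) ?_⟩
    intro a b hab
    by_cases he : s(a, b) = s(D.x₂, D.y₂)
    · rw [Sym2.eq_iff] at he
      rcases he with ⟨rfl, rfl⟩ | ⟨rfl, rfl⟩
      · exact hne
      · exact fun h => hne h.symm
    · exact c.valid (adj₂' D hab he)
  apply c.valid (adj₃' D)
  rw [← h1, ← h2, D.base]

/-- every vertex is on an edge which is not in the clique and is critical -/
theorem exists_edge (D : Data (n + 1) h V₁ V₂ V) (hn : h + 1 ≤ n) (v : V) :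
    ∃ w, D.graph.Adj v w ∧ (D.graph.deleteEdges {s(v, w)}).Colorable n := by
  classical
  have key : ∀ (W₁ W₂ : Type) (D : Data (n + 1) h W₁ W₂ V) (a : W₁),
      ∃ w, D.graph.Adj (D.j₁ a) w ∧ (D.graph.deleteEdges {s(D.j₁ a, w)}).Colorable n := by
    intro W₁ W₂ D a
    by_cases hay : a = D.y₁
    · exact ⟨D.j₂ D.y₂, by rw [hay]; exact adj₃' D, by rw [hay]; exact edge₃ D⟩
    · obtain ⟨b, hab, hbH, hby⟩ : ∃ b, D.G₁.Adj a b ∧ ¬ (a ∈ D.H₁ ∧ b ∈ D.H₁) ∧
          ¬ (a ∈ D.H₁ ∧ b = D.y₁) := by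
        by_contra hcon
        push Not at hcon
        refine mindeg D.crit₁ a (insert D.y₁ (D.H₁.erase a)) (fun w hw => ?_) ?_
        · rw [Finset.mem_insert, Finset.mem_erase]
          by_cases hwH : a ∈ D.H₁ ∧ w ∈ D.H₁
          · exact Or.inr ⟨hw.ne', hwH.2⟩
          · exact Or.inl (hcon w hw (fun h1 h2 => hwH ⟨h1, h2⟩)).2
        · have h1 := Finset.card_insert_le D.y₁ (D.H₁.erase a)
          by_cases haH : a ∈ D.H₁
          · rw [Finset.card_erase_of_mem haH, D.clique₁.2] at h1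
            have h3 : 0 < D.H₁.card := Finset.card_pos.2 ⟨a, haH⟩
            rw [D.clique₁.2] at h3
            omega
          · rw [Finset.erase_eq_of_notMem haH, D.clique₁.2] at h1
            have h4 : (insert D.y₁ (D.H₁.erase a)).card ≤ h + 1 := by
              rw [Finset.erase_eq_of_notMem haH]
              exact h1
            -- `a` has a neighbour, and then the first alternative holds
            exfalso
            refine mindeg D.crit₁ a ∅ (fun w hw => ?_) (by rw [Finset.card_empty]; omega)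
            exact absurd (hcon w hw (fun h1 _ => absurd h1 haH)).1 haH
      have hne : s(a, b) ≠ s(D.x₁, D.y₁) := by
        intro he
        rw [Sym2.eq_iff] at he
        rcases he with ⟨h1, h2⟩ | ⟨h1, h2⟩
        · exact hby ⟨by rw [h1]; exact D.x₁_mem, h2⟩
        · exact hay h1
      exact ⟨D.j₁ b, adj₁' D hab hne, edge₁ D hab hne hbH⟩
  rcases D.cover v with ⟨a, rfl⟩ | ⟨b, rfl⟩
  · exact key V₁ V₂ D a
  · have h1 := key V₂ V₁ (swap D) b
    rw [swap_graph] at h1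
    exact h1

/-- an edge of the constructed graph is critical or lies in the clique -/
theorem edge_all (D : Data (n + 1) h V₁ V₂ V) {v w : V} (hvw : D.graph.Adj v w) :
    (∃ a ∈ D.H₁, ∃ a' ∈ D.H₁, a ≠ a' ∧ D.j₁ a = v ∧ D.j₁ a' = w) ∨
      (D.graph.deleteEdges {s(v, w)}).Colorable n := by
  have key : ∀ v w,
      ((∃ a b, D.G₁.Adj a b ∧ s(a, b) ≠ s(D.x₁, D.y₁) ∧ D.j₁ a = v ∧ D.j₁ b = w) ∨
      (∃ a b, D.G₂.Adj a b ∧ s(a, b) ≠ s(D.x₂, D.y₂) ∧ D.j₂ a = v ∧ D.j₂ b = w) ∨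
      (v = D.j₁ D.y₁ ∧ w = D.j₂ D.y₂)) →
      (∃ a ∈ D.H₁, ∃ a' ∈ D.H₁, a ≠ a' ∧ D.j₁ a = v ∧ D.j₁ a' = w) ∨
      (D.graph.deleteEdges {s(v, w)}).Colorable n := by
    intro v w hr
    rcases hr with ⟨a, b, hab, hne, rfl, rfl⟩ | ⟨a, b, hab, hne, rfl, rfl⟩ | ⟨rfl, rfl⟩
    · by_cases hH : a ∈ D.H₁ ∧ b ∈ D.H₁
      · exact Or.inl ⟨a, hH.1, b, hH.2, hab.ne, rfl, rfl⟩
      · exact Or.inr (edge₁ D hab hne hH)
    · by_cases hH : a ∈ D.H₂ ∧ b ∈ D.H₂
      · obtain ⟨a₁, ha₁, ea⟩ := D.ident₂ a hH.1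
        obtain ⟨b₁, hb₁, eb⟩ := D.ident₂ b hH.2
        refine Or.inl ⟨a₁, ha₁, b₁, hb₁, ?_, ea, eb⟩
        rintro rfl
        exact hab.ne (D.inj₂ (ea.symm.trans eb))
      · exact Or.inr (edge₂ D hab hne hH)
    · exact Or.inr (edge₃ D)
  rw [Data.graph, fromRel_adj] at hvw
  rcases hvw.2 with hr | hr
  · exact key v w hr
  · rcases key w v hr with ⟨a, ha, a', ha', hne, e1, e2⟩ | hc
    · exact Or.inl ⟨a', ha', a, ha, hne.symm, e2, e1⟩
    · right
      rw [Sym2.eq_swap]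
      exact hc

theorem critical_of (D : Data (n + 1) h V₁ V₂ V) (hn : h + 1 ≤ n)
    (hH : ∀ a ∈ D.H₁, ∀ a' ∈ D.H₁, a ≠ a' →
      (D.graph.deleteEdges {s(D.j₁ a, D.j₁ a')}).Colorable n) : IsCritical (n + 1) D.graph := by
  have : Nonempty V := ⟨D.j₁ D.x₁⟩
  refine isCritical_of D.graph n (not_colorable D) ?_ ?_
  · intro v w hvw
    rcases edge_all D hvw with ⟨a, ha, a', ha', hne, rfl, rfl⟩ | hc
    · exact hH a ha a' ha' hne
    · exact hc
  · intro v
    obtain ⟨w, hw, -⟩ := exists_edge D hn v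
    exact ⟨w, hw⟩

theorem colorable_succ' (D : Data (n + 1) h V₁ V₂ V) : D.graph.Colorable (n + 1) :=
  colorable_succ _ n _ _ (edge₃ D)

theorem lt_of_colorable {W : Type} {G : SimpleGraph W} {n : ℕ} (h : G.Colorable n) :
    G.chromaticNumber < ((n + 1 : ℕ) : ℕ∞) := by
  refine lt_of_le_of_lt h.chromaticNumber_le ?_
  exact_mod_cast Nat.lt_succ_self n

theorem colorable_of_lt {W : Type} {G : SimpleGraph W} {n : ℕ}
    (h : G.chromaticNumber < ((n + 1 : ℕ) : ℕ∞)) : G.Colorable n := by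
  rw [← chromaticNumber_le_iff_colorable]
  have : G.chromaticNumber < (n : ℕ∞) + 1 := by exact_mod_cast h
  exact Order.le_of_lt_add_one this

theorem chrom_eq {W : Type} {G : SimpleGraph W} {n : ℕ} (h1 : G.Colorable (n + 1))
    (h2 : ¬ G.Colorable n) : G.chromaticNumber = ((n + 1 : ℕ) : ℕ∞) := by
  have := (chromaticNumber_eq_iff_colorable_not_colorable (G := G) (n := n)).mpr ⟨h1, h2⟩
  rw [this]
  push_cast
  rfl

theorem induce_colorable {W : Type} {G : SimpleGraph W} {n : ℕ} {v w : W}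
    (h : (G.deleteEdges {s(v, w)}).Colorable n) : (G.induce {v}ᶜ).Colorable n := by
  obtain ⟨f⟩ := h
  refine ⟨Coloring.mk (fun x => f x.1) ?_⟩
  rintro ⟨a, ha⟩ ⟨b, hb⟩ hab
  apply f.valid
  rw [deleteEdges_adj]
  refine ⟨hab, ?_⟩
  rw [Set.mem_singleton_iff]
  intro he
  rw [Sym2.eq_iff] at he
  rcases he with ⟨h1, -⟩ | ⟨-, h1⟩
  · exact ha h1
  · exact hb h1

end Main

/-! ### The examples -/

theorem example_edge (m r : ℕ) (hr : r ≤ m) :
    ¬ ((DiracFails.D m r hr).graph.deleteEdges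
      {s((DiracFails.D m r hr).j₁ (Sum.inl 1), (DiracFails.D m r hr).j₁ (Sum.inl 2))}).Colorable
        (m + 4) := by
  rintro ⟨f⟩
  have h1 : (Sum.inl 1 : DiracFails.W m) ∈ DiracFails.H m r hr := by
    rw [DiracFails.mem_inl]; decide
  have h2 : (Sum.inl 2 : DiracFails.W m) ∈ DiracFails.H m r hr := by
    rw [DiracFails.mem_inl]; decide
  have h0 : (Sum.inl 0 : DiracFails.W m) ∈ DiracFails.H m r hr := by
    rw [DiracFails.mem_inl]; decide
  have h3 : (Sum.inl 3 : DiracFails.W m) ∉ DiracFails.H m r hr := by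
    rw [DiracFails.mem_inl]; decide
  have e0 : (DiracFails.D m r hr).j₂ (Sum.inl 0) = (DiracFails.D m r hr).j₁ (Sum.inl 0) :=
    DiracFails.j_of_mem m r hr _ h0
  have e1 : (DiracFails.D m r hr).j₂ (Sum.inl 1) = (DiracFails.D m r hr).j₁ (Sum.inl 1) :=
    DiracFails.j_of_mem m r hr _ h1
  have e2 : (DiracFails.D m r hr).j₂ (Sum.inl 2) = (DiracFails.D m r hr).j₁ (Sum.inl 2) :=
    DiracFails.j_of_mem m r hr _ h2
  have c1 := P2 m (fun p => f ((DiracFails.D m r hr).j₁ p)) (by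
    intro p q hpq hn1 hn2
    apply f.valid
    rw [deleteEdges_adj]
    refine ⟨DiracFails.adj_j₁ m r hr p q hpq hn2, ?_⟩
    rw [Set.mem_singleton_iff]
    exact DiracFails.s_ne (DiracFails.D m r hr).inj₁ hn1)
  have c2 := P2 m (fun p => f ((DiracFails.D m r hr).j₂ p)) (by
    intro p q hpq hn1 hn2
    apply f.valid
    rw [deleteEdges_adj]
    refine ⟨DiracFails.adj_j₂ m r hr p q hpq hn2, ?_⟩
    rw [Set.mem_singleton_iff]
    have := DiracFails.s_ne (DiracFails.D m r hr).inj₂ hn1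
    rwa [e1, e2] at this)
  have hy : f ((DiracFails.D m r hr).j₁ (Sum.inl 3)) ≠
      f ((DiracFails.D m r hr).j₂ (Sum.inl 3)) := by
    apply f.valid
    rw [deleteEdges_adj]
    have hne : (DiracFails.D m r hr).j₁ (Sum.inl 3) ≠ (DiracFails.D m r hr).j₂ (Sum.inl 3) := by
      intro h
      exact h3 (((DiracFails.D m r hr).meet _ _ h).1)
    refine ⟨?_, ?_⟩
    · rw [Data.graph, fromRel_adj]
      exact ⟨hne, Or.inl (Or.inr (Or.inr ⟨rfl, rfl⟩))⟩
    · rw [Set.mem_singleton_iff]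
      intro h
      rw [Sym2.eq_iff] at h
      rcases h with ⟨h, _⟩ | ⟨h, _⟩
      · have := Sum.inl_injective ((DiracFails.D m r hr).inj₁ h)
        exact absurd this (by decide)
      · have := Sum.inl_injective ((DiracFails.D m r hr).inj₁ h)
        exact absurd this (by decide)
  simp only [e0, e1, e2] at c2
  rcases c1 with ⟨a1, a2⟩ | ⟨a1, a2⟩ <;> rcases c2 with ⟨b1, b2⟩ | ⟨b1, b2⟩
  · exact hy (a2.trans b2.symm)
  · exact b1 a1
  · exact a1 b1
  · exact hy (a2.trans b2.symm)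

/-- **Dirac's construction: structure theorem.** (1) Let `1 ≤ h ≤ k - 2` and let `G` be the graph
constructed from any data. Then `G` has chromatic number `k`; deleting any vertex lowers the
chromatic number; deleting any edge which is not inside the common clique `H` lowers the chromatic
number; deleting an edge `a a'` of `H` lowers it provided that every other vertex of `H` except `x`,
and one of `a`, `a'` unless one of them is `x`, is adjacent to `y₁` or `y₂`; `G` is `k`-critical if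
and only if deleting any edge of `H` lowers the chromatic number; in particular `G` is `k`-critical if
`h ≤ 2` or if every vertex of `H` except `x` is adjacent to `y₁` or `y₂`.
(2) For all `h ≥ 3` and `k ≥ h + 2` there are data (with finite graphs) for which `G` is not
`k`-critical; more precisely there is an edge `a a'` of `H`, with `a`, `a'` different from `x`, all
other vertices of `H` except `x` being adjacent to `y₁` or `y₂`, whose deletion does not change the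
chromatic number `k`. -/
theorem result :
    (∀ k h : ℕ, 1 ≤ h → h ≤ k - 2 → ∀ (V₁ V₂ V : Type) (D : Data k h V₁ V₂ V),
      D.graph.chromaticNumber = k ∧
      (∀ v, (D.graph.induce {v}ᶜ).chromaticNumber < k) ∧
      (∀ v w, D.graph.Adj v w → ¬ ((∃ a ∈ D.H₁, D.j₁ a = v) ∧ ∃ a ∈ D.H₁, D.j₁ a = w) →
        (D.graph.deleteEdges {s(v, w)}).chromaticNumber < k) ∧
      (∀ a ∈ D.H₁, ∀ a' ∈ D.H₁, a ≠ a' →
        (a = D.x₁ ∨ a' = D.x₁ ∨ Near D a ∨ Near D a') →
        (∀ c ∈ D.H₁, c ≠ D.x₁ → c ≠ a → c ≠ a' → Near D c) →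
        (D.graph.deleteEdges {s(D.j₁ a, D.j₁ a')}).chromaticNumber < k) ∧
      (IsCritical k D.graph ↔ ∀ a ∈ D.H₁, ∀ a' ∈ D.H₁, a ≠ a' →
        (D.graph.deleteEdges {s(D.j₁ a, D.j₁ a')}).chromaticNumber < k) ∧
      ((h ≤ 2 ∨ ∀ c ∈ D.H₁, c ≠ D.x₁ → Near D c) → IsCritical k D.graph)) ∧
    (∀ k h : ℕ, 3 ≤ h → h ≤ k - 2 →
      ∃ (V₁ V₂ V : Type) (_ : Finite V₁) (_ : Finite V₂) (_ : Finite V) (D : Data k h V₁ V₂ V),
        ¬ IsCritical k D.graph ∧
        ∃ a ∈ D.H₁, ∃ a' ∈ D.H₁, a ≠ a' ∧ a ≠ D.x₁ ∧ a' ≠ D.x₁ ∧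
          (∀ c ∈ D.H₁, c ≠ D.x₁ → c ≠ a → c ≠ a' → Near D c) ∧
          (D.graph.deleteEdges {s(D.j₁ a, D.j₁ a')}).chromaticNumber = k) := by
  constructor
  · intro k h h1 hk V₁ V₂ V D
    classical
    obtain ⟨n, rfl⟩ : ∃ n, k = n + 1 := ⟨k - 1, by omega⟩
    have hn : h + 1 ≤ n := by omega
    have hcrit : ∀ a ∈ D.H₁, ∀ a' ∈ D.H₁, a ≠ a' →
        (a = D.x₁ ∨ a' = D.x₁ ∨ Near D a ∨ Near D a') →
        (∀ c ∈ D.H₁, c ≠ D.x₁ → c ≠ a → c ≠ a' → Near D c) →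
        (D.graph.deleteEdges {s(D.j₁ a, D.j₁ a')}).Colorable n :=
      fun a ha a' ha' hne hnear hall => edge₄ D hn ha ha' hne hnear hall
    refine ⟨chrom_eq (colorable_succ' D) (not_colorable D), ?_, ?_, ?_, ?_, ?_⟩
    · intro v
      obtain ⟨w, -, hw⟩ := exists_edge D hn v
      exact lt_of_colorable (induce_colorable hw)
    · intro v w hvw hout
      rcases edge_all D hvw with ⟨a, ha, a', ha', -, e1, e2⟩ | hc
      · exact absurd ⟨⟨a, ha, e1⟩, ⟨a', ha', e2⟩⟩ hout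
      · exact lt_of_colorable hc
    · exact fun a ha a' ha' hne hnear hall => lt_of_colorable (hcrit a ha a' ha' hne hnear hall)
    · constructor
      · intro hc a ha a' ha' hne
        apply lt_of_colorable
        apply delete_of_critical _ n hc
        refine adj₁' D (D.clique₁.1 ha ha' hne) ?_
        intro he
        rw [Sym2.eq_iff] at he
        rcases he with ⟨-, h'⟩ | ⟨h', -⟩
        · exact D.y₁_not_mem (h' ▸ ha')
        · exact D.y₁_not_mem (h' ▸ ha)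
      · intro hall
        exact critical_of D hn fun a ha a' ha' hne => colorable_of_lt (hall a ha a' ha' hne)
    · rintro (h2 | hnear)
      · refine critical_of D hn fun a ha a' ha' hne => ?_
        have hcard := D.clique₁.2
        have hx : a = D.x₁ ∨ a' = D.x₁ := by
          by_contra hcon
          push Not at hcon
          have h3 : ({D.x₁, a, a'} : Finset V₁) ⊆ D.H₁ := by
            intro c hc
            simp only [Finset.mem_insert, Finset.mem_singleton] at hc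
            rcases hc with rfl | rfl | rfl
            · exact D.x₁_mem
            · exact ha
            · exact ha'
          have h4 : ({D.x₁, a, a'} : Finset V₁).card = 3 :=
            Finset.card_eq_three.2 ⟨D.x₁, a, a', hcon.1.symm, hcon.2.symm, hne, rfl⟩
          have h5 := Finset.card_le_card h3
          omega
        refine hcrit a ha a' ha' hne (hx.elim Or.inl (fun h => Or.inr (Or.inl h))) ?_
        intro c hc hcx hca hca'
        exfalso
        have h3 : ({c, a, a'} : Finset V₁) ⊆ D.H₁ := by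
          intro c' hc'
          simp only [Finset.mem_insert, Finset.mem_singleton] at hc'
          rcases hc' with rfl | rfl | rfl
          · exact hc
          · exact ha
          · exact ha'
        have h4 : ({c, a, a'} : Finset V₁).card = 3 :=
          Finset.card_eq_three.2 ⟨c, a, a', hca, hca', hne, rfl⟩
        have h5 := Finset.card_le_card h3
        omega
      · refine critical_of D hn fun a ha a' ha' hne => ?_
        refine hcrit a ha a' ha' hne ?_ (fun c hc hcx _ _ => hnear c hc hcx)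
        by_cases hax : a = D.x₁
        · exact Or.inl hax
        · exact Or.inr (Or.inr (Or.inl (hnear a ha hax)))
  · intro k h h3 hk
    obtain ⟨r, rfl⟩ : ∃ r, h = r + 3 := ⟨h - 3, by omega⟩
    obtain ⟨m, rfl⟩ : ∃ m, k = m + 5 := ⟨k - 5, by omega⟩
    have hr : r ≤ m := by omega
    refine ⟨DiracFails.W m, DiracFails.W m, DiracFails.U m r hr, inferInstance, inferInstance,
      inferInstance, DiracFails.D m r hr, DiracFails.not_critical m r hr, Sum.inl 1, ?_, Sum.inl 2,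
      ?_, ?_, ?_, ?_, ?_, ?_⟩
    · change (Sum.inl 1 : DiracFails.W m) ∈ DiracFails.H m r hr
      rw [DiracFails.mem_inl]; decide
    · change (Sum.inl 2 : DiracFails.W m) ∈ DiracFails.H m r hr
      rw [DiracFails.mem_inl]; decide
    · intro h
      exact absurd (Sum.inl_injective h) (by decide)
    · intro h
      exact absurd (Sum.inl_injective h) (by decide)
    · intro h
      exact absurd (Sum.inl_injective h) (by decide)
    · rintro (c | z) hc h0 h1 h2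
      · exfalso
        have hc' : (Sum.inl c : DiracFails.W m) ∈ DiracFails.H m r hr := hc
        rw [DiracFails.mem_inl] at hc'
        simp only [Finset.mem_insert, Finset.mem_singleton] at hc'
        rcases hc' with rfl | rfl | rfl
        · exact h0 rfl
        · exact h1 rfl
        · exact h2 rfl
      · exact Or.inl (JG_rl m 3 z)
    · refine chrom_eq (n := m + 4) ?_ (example_edge m r hr)
      exact (colorable_succ' (DiracFails.D m r hr)).mono_left (deleteEdges_le _)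

end Pool.Agent.Results.MP_e06427_co.StructureTheorem
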